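import Pool.Agent.Helper46.Pak.PTB
import Pool.Agent.Helper39.Pak.PTC

/-! PT-D: the stabiliser index is the value index. -/

namespace Pool.Agent.Helper63.Pak

open IntermediateField

variable {Ω : Type} [Field Ω] [Algebra ℂ Ω]

namespace H50

/-- index as a number of values -/
theorem relIndex_eq_ncard {G α : Type*} [Group G] {D A : Subgroup G} (f : G → α)
    (hf : ∀ g ∈ A, ∀ h ∈ A, (f g = f h ↔ g⁻¹ * h ∈ D)) : D.relIndex A = (f '' A).ncard := by
  classical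
  rw [Subgroup.relIndex, Subgroup.index_eq_card, ← Nat.card_coe_set_eq]
  let F : A ⧸ D.subgroupOf A → (f '' (A : Set G)) :=
    Quotient.lift (fun a : A => (⟨f a, ⟨a, a.2, rfl⟩⟩ : (f '' (A : Set G)))) (by
      intro a b hab
      have hab' : a⁻¹ * b ∈ D.subgroupOf A := QuotientGroup.leftRel_apply.1 hab
      rw [Subgroup.mem_subgroupOf] at hab'
      exact Subtype.ext ((hf a a.2 b b.2).2 hab'))
  refine Nat.card_congr (Equiv.ofBijective F ⟨?_, ?_⟩)
  · intro x y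
    refine Quotient.inductionOn₂ x y ?_
    intro a b hab
    have h1 : f a = f b := congrArg Subtype.val hab
    refine Quotient.sound ?_
    refine QuotientGroup.leftRel_apply.2 ?_
    rw [Subgroup.mem_subgroupOf]
    exact (hf a a.2 b b.2).1 h1
  · rintro ⟨_, g, hg, rfl⟩
    exact ⟨Quotient.mk _ ⟨g, hg⟩, rfl⟩

/-- automorphisms that are the identity on `K` -/
def fixG (K : IntermediateField ℂ Ω) : Subgroup (Ω ≃ₐ[ℂ] Ω) where
  carrier := {g | Fixes g K}
  one_mem' := fun _ _ => rfl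
  mul_mem' {g h} hg hh := fun z hz => by rw [AlgEquiv.mul_apply, hh z hz, hg z hz]
  inv_mem' {g} hg := fun z hz => by
    have := congrArg g.symm (hg z hz)
    rw [AlgEquiv.symm_apply_apply] at this
    exact this.symm

theorem mem_fixG {K : IntermediateField ℂ Ω} {g : Ω ≃ₐ[ℂ] Ω} : g ∈ fixG K ↔ Fixes g K := Iff.rfl

theorem fixes_symm {K : IntermediateField ℂ Ω} {g : Ω ≃ₐ[ℂ] Ω} (hg : Fixes g K) :
    Fixes g.symm K := (fixG K).inv_mem hg

/-- `M` is stable under the automorphisms over `K` -/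
def Stable (K M : IntermediateField ℂ Ω) : Prop :=
  ∀ g : Ω ≃ₐ[ℂ] Ω, Fixes g K → ∀ z ∈ M, g z ∈ M

theorem Stable.mapF_eq {K M : IntermediateField ℂ Ω} (hM : Stable K M) {g : Ω ≃ₐ[ℂ] Ω}
    (hg : Fixes g K) : mapF g M = M := by
  ext z
  rw [mem_mapF]
  constructor
  · intro h
    have := hM g hg _ h
    rwa [g.apply_symm_apply] at this
  · intro h
    exact hM g.symm (fixes_symm hg) z h

theorem mapF_eq_self {K : IntermediateField ℂ Ω} {g : Ω ≃ₐ[ℂ] Ω} (hg : Fixes g K) :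
    mapF g K = K := by
  ext z
  rw [mem_mapF]
  constructor
  · intro h
    have := hg _ h
    rw [g.apply_symm_apply] at this
    rw [this]
    exact h
  · intro h
    rw [fixes_symm hg z h]
    exact h

theorem fixes_sup_adjoin {K : IntermediateField ℂ Ω} {g : Ω ≃ₐ[ℂ] Ω} {θ : Ω} (hg : Fixes g K)
    (hθ : g θ = θ) : Fixes g (K ⊔ ℂ⟮θ⟯) := by
  have h1 : K ⊔ ℂ⟮θ⟯ ≤ IntermediateField.fixedField (Subgroup.zpowers g) := by
    refine sup_le ?_ ?_
    · intro z hz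
      rw [IntermediateField.mem_fixedField_iff]
      intro f hf
      rw [Subgroup.mem_zpowers_iff] at hf
      obtain ⟨k, rfl⟩ := hf
      exact ((fixG K).zpow_mem (show g ∈ fixG K from hg) k) z hz
    · rw [IntermediateField.adjoin_simple_le_iff]
      rw [IntermediateField.mem_fixedField_iff]
      intro f hf
      have h2 : g ∈ MulAction.stabilizer (Ω ≃ₐ[ℂ] Ω) θ := hθ
      exact (Subgroup.zpowers_le.2 h2) hf
  intro z hz
  have h2 := h1 hz
  rw [IntermediateField.mem_fixedField_iff] at h2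
  exact h2 g (Subgroup.mem_zpowers g)

theorem fixes_sup {K₁ K₂ : IntermediateField ℂ Ω} {g : Ω ≃ₐ[ℂ] Ω} (h₁ : Fixes g K₁)
    (h₂ : Fixes g K₂) : Fixes g (K₁ ⊔ K₂) := by
  have h1 : K₁ ⊔ K₂ ≤ IntermediateField.fixedField (Subgroup.zpowers g) := by
    refine sup_le ?_ ?_
    · intro z hz
      rw [IntermediateField.mem_fixedField_iff]
      intro f hf
      rw [Subgroup.mem_zpowers_iff] at hf
      obtain ⟨k, rfl⟩ := hf
      exact ((fixG K₁).zpow_mem (show g ∈ fixG K₁ from h₁) k) z hz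
    · intro z hz
      rw [IntermediateField.mem_fixedField_iff]
      intro f hf
      rw [Subgroup.mem_zpowers_iff] at hf
      obtain ⟨k, rfl⟩ := hf
      exact ((fixG K₂).zpow_mem (show g ∈ fixG K₂ from h₂) k) z hz
  intro z hz
  have h2 := h1 hz
  rw [IntermediateField.mem_fixedField_iff] at h2
  exact h2 g (Subgroup.mem_zpowers g)

end H50

open H50

variable [CurveUniverse Ω]

namespace H50

/-- existence of a Galois closure -/
theorem exists_stable {K K' : IntermediateField ℂ Ω} (hK : FF K) (hK' : FF K') (h : K ≤ K') :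
    ∃ M, FF M ∧ K' ≤ M ∧ Stable K M := by
  obtain ⟨z, hz⟩ := exists_primitive hK hK' h
  set C : Set Ω := {w | ∃ g : Ω ≃ₐ[ℂ] Ω, Fixes g K ∧ g z = w} with hC
  have hCf : C.Finite := (ncard_conj hK z).1
  refine ⟨K ⊔ adjoin ℂ C, ⟨fg_sup hK.1 (fg_adjoin_of_finite hCf), ?_⟩, ?_, ?_⟩
  · intro hbot
    refine hK.2 (le_bot_iff.1 ?_)
    rw [← hbot]
    exact le_sup_left
  · rw [hz]
    refine sup_le_sup le_rfl ?_
    rw [adjoin_simple_le_iff]
    exact subset_adjoin ℂ C ⟨1, fun _ _ => rfl, rfl⟩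
  · intro g hg w hw
    have h1 : mapF g (K ⊔ adjoin ℂ C) ≤ K ⊔ adjoin ℂ C := by
      rw [mapF, IntermediateField.map_sup, IntermediateField.adjoin_map]
      refine sup_le_sup ?_ ?_
      · exact (mapF_eq_self hg).le
      · refine adjoin.mono ℂ _ _ ?_
        rintro _ ⟨_, ⟨k, hk, rfl⟩, rfl⟩
        exact ⟨g * k, (fixG K).mul_mem hg hk, rfl⟩
    exact h1 (apply_mem_mapF.2 hw)

theorem exists_ff_primitive {K M : IntermediateField ℂ Ω} (hK : FF K) (hM : FF M) (h : K ≤ M) :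
    ∃ θ ∈ M, M = K ⊔ ℂ⟮θ⟯ ∧ ∀ g : Ω ≃ₐ[ℂ] Ω, Fixes g K → (g θ = θ ↔ Fixes g M) := by
  obtain ⟨θ, hθ⟩ := exists_primitive hK hM h
  have hθM : θ ∈ M := by
    rw [hθ]
    exact (le_sup_right : ℂ⟮θ⟯ ≤ K ⊔ ℂ⟮θ⟯) (mem_adjoin_simple_self ℂ θ)
  refine ⟨θ, hθM, hθ, ?_⟩
  intro g hg
  constructor
  · intro h1
    rw [hθ]
    exact fixes_sup_adjoin hg h1
  · intro h1
    exact h1 θ hθM

theorem relIndex_fixG {K M : IntermediateField ℂ Ω} (hK : FF K) (hM : FF M) (h : K ≤ M) :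
    (fixG M).relIndex (fixG K) = K.relfinrank M := by
  obtain ⟨θ, hθM, hθ, hfix⟩ := exists_ff_primitive hK hM h
  rw [relIndex_eq_ncard (fun g : Ω ≃ₐ[ℂ] Ω => g θ)]
  · have h1 := (ncard_conj hK θ).2
    rw [← hθ] at h1
    rw [← h1]
    rfl
  · intro g hg k hk
    have h1 : Fixes (g⁻¹ * k) K := (fixG K).mul_mem ((fixG K).inv_mem hg) hk
    rw [mem_fixG, ← hfix _ h1]
    constructor
    · intro h2
      change g.symm (k θ) = θ
      rw [← h2]
      exact g.symm_apply_apply θ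
    · intro h2
      change g.symm (k θ) = θ at h2
      exact (g.symm_apply_eq.1 h2).symm

/-- the decomposition group of the place of `M` induced by `v` -/
def decomp (v : Pt Ω) {K M : IntermediateField ℂ Ω} (hM : Stable K M) :
    Subgroup (Ω ≃ₐ[ℂ] Ω) where
  carrier := {g | Fixes g K ∧ SameOn M (g • v) v}
  one_mem' := ⟨fun _ _ => rfl, by rw [one_smul]; exact SameOn.refl M v⟩
  mul_mem' {g h} hg hh := ⟨(fixG K).mul_mem hg.1 hh.1, by
    rw [mul_smul]
    have h1 : SameOn (mapF g M) (g • (h • v)) (g • v) := hh.2.smul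
    rw [hM.mapF_eq hg.1] at h1
    exact h1.trans hg.2⟩
  inv_mem' {g} hg := ⟨(fixG K).inv_mem hg.1, by
    have h1 : SameOn (mapF g⁻¹ M) (g⁻¹ • (g • v)) (g⁻¹ • v) := hg.2.smul
    rw [hM.mapF_eq ((fixG K).inv_mem hg.1), inv_smul_smul] at h1
    exact h1.symm⟩

theorem image_fixG (v : Pt Ω) {K M : IntermediateField ℂ Ω} (hK : FF K) (h : K ≤ M) :
    (fun g : Ω ≃ₐ[ℂ] Ω => Pl.mk M (g • v)) '' (fixG K : Set (Ω ≃ₐ[ℂ] Ω)) =
      {P : Pl M | SameOn K P.pt v} := by
  ext P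
  constructor
  · rintro ⟨g, hg, rfl⟩
    exact ((Pl.sameOn_pt_mk M (g • v)).mono h).trans (SameOn.smul_of_fixes hg v)
  · intro hP
    obtain ⟨g, hg, hgv⟩ := pt_transitive hK (SameOn.symm hP)
    refine ⟨g, hg, ?_⟩
    change Pl.mk M (g • v) = P
    rw [hgv, Pl.mk_pt]

theorem relIndex_decomp (v : Pt Ω) {K M : IntermediateField ℂ Ω} (hK : FF K) (h : K ≤ M)
    (hM : Stable K M) : (decomp v hM).relIndex (fixG K) = {P : Pl M | SameOn K P.pt v}.ncard := by
  rw [← image_fixG v hK h]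
  refine relIndex_eq_ncard _ ?_
  intro g hg k hk
  rw [Pl.mk_eq_mk]
  constructor
  · intro h1
    refine ⟨(fixG K).mul_mem ((fixG K).inv_mem hg) hk, ?_⟩
    have h2 : SameOn (mapF g⁻¹ M) (g⁻¹ • (g • v)) (g⁻¹ • (k • v)) := h1.smul
    rw [hM.mapF_eq ((fixG K).inv_mem hg), inv_smul_smul, ← mul_smul] at h2
    exact h2.symm
  · rintro ⟨-, h1⟩
    have h2 : SameOn (mapF g M) (g • ((g⁻¹ * k) • v)) (g • v) := h1.smul
    rw [hM.mapF_eq hg, mul_smul, smul_inv_smul] at h2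
    exact h2.symm

theorem fixG_relIndex_decomp (v : Pt Ω) {K M : IntermediateField ℂ Ω} (hK : FF K) (hM' : FF M)
    (h : K ≤ M) (hM : Stable K M) : (fixG M).relIndex (decomp v hM) = e v K M := by
  obtain ⟨θ, hθM, hθ, hfix⟩ := exists_ff_primitive hK hM' h
  have key : ∀ g : Ω ≃ₐ[ℂ] Ω, ∀ k : Ω ≃ₐ[ℂ] Ω, Fixes g K → Fixes k K →
      (g θ = k θ ↔ Fixes (g⁻¹ * k) M) := by
    intro g k hg hk
    have h1 : Fixes (g⁻¹ * k) K := (fixG K).mul_mem ((fixG K).inv_mem hg) hk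
    rw [← hfix _ h1]
    constructor
    · intro h2
      change g.symm (k θ) = θ
      rw [← h2]
      exact g.symm_apply_apply θ
    · intro h2
      change g.symm (k θ) = θ at h2
      exact (g.symm_apply_eq.1 h2).symm
  rw [e, relIndex_eq_ncard (fun g : Ω ≃ₐ[ℂ] Ω => g θ) (D := fixG M) (A := decomp v hM)
    (fun g hg k hk => key g k hg.1 hk.1), relIndex_eq_ncard (fun g : Ω ≃ₐ[ℂ] Ω => g θ)
    (D := stab v M) (A := stab v K)]
  · congr 1
    ext w
    constructor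
    · rintro ⟨g, hg, rfl⟩
      obtain ⟨k, hk, hkv⟩ := pt_transitive hM' hg.2
      refine ⟨k * g, ⟨(fixG K).mul_mem (hk.mono h) hg.1, ?_⟩, ?_⟩
      · rw [mul_smul, hkv]
      · change k (g θ) = g θ
        exact hk _ (hM g hg.1 θ hθM)
    · rintro ⟨g, hg, rfl⟩
      refine ⟨g, ⟨hg.1, ?_⟩, rfl⟩
      rw [hg.2]
      exact SameOn.refl M v
  · intro g hg k hk
    rw [mem_stab, key g k hg.1 hk.1]
    constructor
    · intro h1
      exact ⟨h1, ((stab v K).mul_mem ((stab v K).inv_mem hg) hk).2⟩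
    · intro h1
      exact h1.1

theorem ordO_smul_stable (v : Pt Ω) {K M : IntermediateField ℂ Ω} (hM : Stable K M)
    {g : Ω ≃ₐ[ℂ] Ω} (hg : Fixes g K) (z : Ω) : ordO (g • v) M (g z) = ordO v M z := by
  have h1 := ordO_smul (K := M) v g z
  rwa [hM.mapF_eq hg] at h1

theorem eV_eq_of_one (v : Pt Ω) {K M : IntermediateField ℂ Ω} (hK : FF K) (hM : FF M) (h : K ≤ M)
    {π : Ω} (hπ : π ∈ K) (hπ1 : ordO v K π = 1) : ordO v M π = eV v K M := by
  rw [ordO_eq_eV_mul v hK hM h hπ, hπ1, mul_one]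

theorem eV_smul (v : Pt Ω) {K M : IntermediateField ℂ Ω} (hK : FF K) (hM' : FF M) (h : K ≤ M)
    (hM : Stable K M) {g : Ω ≃ₐ[ℂ] Ω} (hg : Fixes g K) : eV (g • v) K M = eV v K M := by
  obtain ⟨π, hπ, hπ1⟩ := exists_ordO_eq_one v hK
  have h1 : ordO (g • v) K π = 1 := by
    have h2 := ordO_smul (K := K) v g π
    rw [mapF_eq_self hg, hg π hπ] at h2
    rw [h2, hπ1]
  have h2 := eV_eq_of_one (g • v) hK hM' h hπ h1
  have h3 := eV_eq_of_one v hK hM' h hπ hπ1
  have h4 := ordO_smul_stable v hM hg π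
  rw [hg π hπ] at h4
  rw [h4, h3] at h2
  exact_mod_cast h2.symm

theorem eV_mul (v : Pt Ω) {K K' M : IntermediateField ℂ Ω} (hK : FF K) (hK' : FF K') (hM : FF M)
    (h : K ≤ K') (h' : K' ≤ M) : eV v K M = eV v K K' * eV v K' M := by
  obtain ⟨π, hπ, hπ1⟩ := exists_ordO_eq_one v hK
  have h1 := eV_eq_of_one v hK hM (h.trans h') hπ hπ1
  have h2 := eV_eq_of_one v hK hK' h hπ hπ1
  have h3 := ordO_eq_eV_mul v hK' hM h' (h hπ)
  rw [h1, h2] at h3
  rw [mul_comm]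
  exact_mod_cast h3

theorem eV_congr {v w : Pt Ω} {K K' : IntermediateField ℂ Ω} (hK : FF K) (hK' : FF K')
    (h : K ≤ K') (hvw : SameOn K' v w) : eV v K K' = eV w K K' := by
  obtain ⟨π, hπ, hπ1⟩ := exists_ordO_eq_one v hK
  have h1 := eV_eq_of_one v hK hK' h hπ hπ1
  have h2 : ordO w K π = 1 := by rw [← ordO_congr v (hvw.mono h), hπ1]
  have h3 := eV_eq_of_one w hK hK' h hπ h2
  rw [ordO_congr v hvw, h3] at h1
  exact_mod_cast h1.symm

theorem e_eq_eV_of_stable (v : Pt Ω) {K M : IntermediateField ℂ Ω} (hK : FF K) (hM' : FF M)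
    (h : K ≤ M) (hM : Stable K M) : e v K M = eV v K M := by
  have hle : fixG M ≤ decomp v hM := by
    intro g hg
    exact ⟨hg.mono h, SameOn.smul_of_fixes hg v⟩
  have hle' : decomp v hM ≤ fixG K := fun g hg => hg.1
  have h1 := Subgroup.relIndex_mul_relIndex _ _ _ hle hle'
  rw [fixG_relIndex_decomp v hK hM' h hM, relIndex_decomp v hK h hM, relIndex_fixG hK hM' h] at h1
  have hfin := finite_over v hK hM' h
  have h2 := sum_eV v hK hM' h
  rw [finsum_mem_congr rfl (g := fun _ => eV v K M)] at h2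
  · rw [finsum_mem_eq_finite_toFinset_sum _ hfin, Finset.sum_const, smul_eq_mul,
      ← Set.ncard_eq_toFinset_card _ hfin] at h2
    rw [← h2, mul_comm] at h1
    have hpos : 0 < {P : Pl M | SameOn K P.pt v}.ncard := by
      rw [Set.ncard_pos hfin]
      exact ⟨Pl.mk M v, (Pl.sameOn_pt_mk M v).mono h⟩
    exact Nat.eq_of_mul_eq_mul_left hpos h1
  · intro P hP
    obtain ⟨g, hg, hgv⟩ := pt_transitive hK (SameOn.symm hP)
    rw [← hgv, eV_smul v hK hM' h hM hg]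

end H50

theorem pt_e_eq_eV (v : Pt Ω) {K K' : IntermediateField ℂ Ω} (hK : FF K) (hK' : FF K')
    (h : K ≤ K') : e v K K' = eV v K K' := by
  obtain ⟨M, hM, hK'M, hst⟩ := exists_stable hK hK' h
  have hst' : Stable K' M := fun g hg z hz => hst g (hg.mono h) z hz
  have h1 := e_eq_eV_of_stable v hK hM (h.trans hK'M) hst
  have h2 := e_eq_eV_of_stable v hK' hM hK'M hst'
  rw [e_mul v h hK'M, eV_mul v hK hK' hM h hK'M, h2] at h1
  exact Nat.eq_of_mul_eq_mul_right (eV_pos v hK' hM hK'M) h1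

theorem pt_e_congr {v w : Pt Ω} {K K' : IntermediateField ℂ Ω} (hK : FF K) (hK' : FF K')
    (h : K ≤ K') (hvw : SameOn K' v w) : e v K K' = e w K K' := by
  rw [pt_e_eq_eV v hK hK' h, pt_e_eq_eV w hK hK' h, eV_congr hK hK' h hvw]

end Pool.Agent.Helper63.Pak
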