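import Pool.Agent.Helper50.Pak.PTD

/-! PT-E: the tame lcm lemma and finiteness of ramification. -/

namespace Pool.Agent.Helper63.Pak

open IntermediateField

variable {Ω : Type} [Field Ω] [Algebra ℂ Ω]

namespace H50

/-! ### group theory -/

theorem zpow_mem_iff_relIndex_dvd {G : Type*} [Group G] (g₀ : G) (H : Subgroup G) (k : ℤ) :
    g₀ ^ k ∈ H ↔ (H.relIndex (Subgroup.zpowers g₀) : ℤ) ∣ k := by
  classical
  let φ : ℤ →+ Additive G := zmultiplesHom (Additive G) (Additive.ofMul g₀)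
  have hφ : ∀ k : ℤ, φ k = Additive.ofMul (g₀ ^ k) := fun k => by
    simp [φ, ofMul_zpow]
  let H' : AddSubgroup (Additive G) := Subgroup.toAddSubgroup H
  have h1 : (H'.comap φ).index = H'.relIndex φ.range := AddSubgroup.index_comap _ φ
  have h2 : φ.range = Subgroup.toAddSubgroup (Subgroup.zpowers g₀) := by
    ext x
    rw [AddMonoidHom.mem_range]
    constructor
    · rintro ⟨k, rfl⟩
      rw [hφ]
      exact ⟨k, rfl⟩
    · rintro ⟨k, hk⟩
      refine ⟨k, ?_⟩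
      rw [hφ]
      exact hk
  have h3 : H'.relIndex φ.range = H.relIndex (Subgroup.zpowers g₀) := by
    rw [h2]
    exact Subgroup.relIndex_toAddSubgroup
  obtain ⟨a, ha⟩ := Int.subgroup_cyclic (H'.comap φ)
  rw [← AddSubgroup.zmultiples_eq_closure] at ha
  have h4 : (H'.comap φ).index = a.natAbs := by rw [ha, Int.index_zmultiples]
  have h5 : g₀ ^ k ∈ H ↔ k ∈ H'.comap φ := by
    rw [AddSubgroup.mem_comap, hφ]
    rfl
  rw [h5, ← h3, ← h1, h4, ha, Int.mem_zmultiples_iff, Int.natAbs_dvd]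

/-- if `S` is generated by `g₀` modulo `H` then the index of `H` in `S` detects powers of `g₀` -/
theorem zpow_mem_iff {G : Type*} [Group G] {S H : Subgroup G} {g₀ : G} (hg₀ : g₀ ∈ S)
    (hS : ∀ g ∈ S, ∃ k : ℤ, (g₀ ^ k)⁻¹ * g ∈ H) (k : ℤ) :
    g₀ ^ k ∈ H ↔ (H.relIndex S : ℤ) ∣ k := by
  have h1 : H.relIndex S = H.relIndex (Subgroup.zpowers g₀) := by
    rw [relIndex_eq_ncard (fun g : G => (g : G ⧸ H)) (D := H) (A := S)
      (fun g _ h _ => QuotientGroup.eq), relIndex_eq_ncard (fun g : G => (g : G ⧸ H)) (D := H)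
      (A := Subgroup.zpowers g₀) (fun g _ h _ => QuotientGroup.eq)]
    congr 1
    ext x
    constructor
    · rintro ⟨g, hg, rfl⟩
      obtain ⟨k, hk⟩ := hS g hg
      exact ⟨g₀ ^ k, ⟨k, rfl⟩, QuotientGroup.eq.2 hk⟩
    · rintro ⟨_, ⟨k, rfl⟩, rfl⟩
      exact ⟨g₀ ^ k, S.zpow_mem hg₀ k, rfl⟩
  rw [h1]
  exact zpow_mem_iff_relIndex_dvd g₀ H k

theorem relIndex_inf_lcm {G : Type*} [Group G] {S N H₁ H₂ : Subgroup G} {g₀ : G} (hg₀ : g₀ ∈ S)
    (hS : ∀ g ∈ S, ∃ k : ℤ, (g₀ ^ k)⁻¹ * g ∈ N) (h₁ : N ≤ H₁) (h₂ : N ≤ H₂) :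
    (H₁ ⊓ H₂).relIndex S = Nat.lcm (H₁.relIndex S) (H₂.relIndex S) := by
  have key : ∀ k : ℤ, ((H₁ ⊓ H₂).relIndex S : ℤ) ∣ k ↔
      (H₁.relIndex S : ℤ) ∣ k ∧ (H₂.relIndex S : ℤ) ∣ k := by
    intro k
    rw [← zpow_mem_iff hg₀ (fun g hg => (hS g hg).imp fun k hk => h₁ hk),
      ← zpow_mem_iff hg₀ (fun g hg => (hS g hg).imp fun k hk => h₂ hk),
      ← zpow_mem_iff hg₀ (fun g hg => (hS g hg).imp fun k hk => (le_inf h₁ h₂) hk),
      Subgroup.mem_inf]
  refine Nat.dvd_antisymm ?_ ?_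
  · have h := (key (Nat.lcm (H₁.relIndex S) (H₂.relIndex S) : ℕ)).2
      ⟨Int.natCast_dvd_natCast.2 (Nat.dvd_lcm_left _ _),
        Int.natCast_dvd_natCast.2 (Nat.dvd_lcm_right _ _)⟩
    exact Int.natCast_dvd_natCast.1 h
  · have h := (key ((H₁ ⊓ H₂).relIndex S : ℕ)).1 (dvd_refl _)
    exact Nat.lcm_dvd (Int.natCast_dvd_natCast.1 h.1) (Int.natCast_dvd_natCast.1 h.2)

/-! ### residues -/

theorem val_one_of_mem {v : Pt Ω} {z : Ω} (hz : z ∈ v.ring) : v.ring.valuation z ≤ 1 :=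
  (ValuationSubring.valuation_le_one_iff _ _).2 hz

/-- `g` with `g • v = v` preserves the ring -/
theorem mem_ring_of_smul {v : Pt Ω} {g : Ω ≃ₐ[ℂ] Ω} (hg : g • v = v) (z : Ω) :
    g z ∈ v.ring ↔ z ∈ v.ring := by
  have h1 : g z ∈ (g • v).ring ↔ z ∈ v.ring := by rw [mem_smul_ring, g.symm_apply_apply]
  rwa [hg] at h1

theorem val_lt_one_iff (v : Pt Ω) (z : Ω) :
    v.ring.valuation z < 1 ↔ z = 0 ∨ z⁻¹ ∉ v.ring := by
  by_cases hz : z = 0
  · simp [hz]
  · have h0 : v.ring.valuation z ≠ 0 := (Valuation.ne_zero_iff _).2 hz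
    rw [← ValuationSubring.valuation_le_one_iff, map_inv₀, not_le]
    constructor
    · intro h
      exact Or.inr ((one_lt_inv₀ (zero_lt_iff.2 h0)).2 h)
    · rintro (h | h)
      · exact absurd h hz
      · exact (one_lt_inv₀ (zero_lt_iff.2 h0)).1 h

theorem val_lt_one_smul {v : Pt Ω} {g : Ω ≃ₐ[ℂ] Ω} (hg : g • v = v) {z : Ω}
    (hz : v.ring.valuation z < 1) : v.ring.valuation (g z) < 1 := by
  rw [val_lt_one_iff] at hz ⊢
  rcases hz with hz | hz
  · left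
    rw [hz, map_zero]
  · right
    rw [← map_inv₀, mem_ring_of_smul hg]
    exact hz

theorem sub_smul_lt_one {v : Pt Ω} {g : Ω ≃ₐ[ℂ] Ω} (hg : g • v = v) {z : Ω} {c : ℂ}
    (hz : v.ring.valuation (z - algebraMap ℂ Ω c) < 1) :
    v.ring.valuation (g z - algebraMap ℂ Ω c) < 1 := by
  have h1 := val_lt_one_smul hg hz
  rwa [map_sub, AlgEquiv.commutes] at h1

theorem algebraMap_val_eq_one (v : Pt Ω) {c : ℂ} (hc : c ≠ 0) :
    v.ring.valuation (algebraMap ℂ Ω c) = 1 := by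
  refine le_antisymm (val_one_of_mem (v.const_mem c)) ?_
  have h1 := val_one_of_mem (v.const_mem c⁻¹)
  have hc' : algebraMap ℂ Ω c ≠ 0 := by
    intro h
    exact hc ((map_eq_zero _).1 h)
  have h0 : v.ring.valuation (algebraMap ℂ Ω c) ≠ 0 := (Valuation.ne_zero_iff _).2 hc'
  rw [map_inv₀ (algebraMap ℂ Ω), map_inv₀] at h1
  exact (inv_le_one₀ (zero_lt_iff.2 h0)).1 h1

theorem residue_unique {v : Pt Ω} {z : Ω} {c d : ℂ}
    (hc : v.ring.valuation (z - algebraMap ℂ Ω c) < 1)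
    (hd : v.ring.valuation (z - algebraMap ℂ Ω d) < 1) : c = d := by
  by_contra hne
  have h1 : v.ring.valuation (algebraMap ℂ Ω (c - d)) = 1 :=
    algebraMap_val_eq_one v (sub_ne_zero.2 hne)
  have h2 : algebraMap ℂ Ω (c - d) = (z - algebraMap ℂ Ω d) - (z - algebraMap ℂ Ω c) := by
    rw [map_sub]; ring
  rw [h2] at h1
  have h3 := Valuation.map_sub v.ring.valuation (z - algebraMap ℂ Ω d) (z - algebraMap ℂ Ω c)
  rw [h1] at h3
  exact absurd (lt_of_le_of_lt h3 (max_lt hd hc)) (lt_irrefl _)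

theorem residue_mul {v : Pt Ω} {z w : Ω} {c d : ℂ} (hw : w ∈ v.ring)
    (hc : v.ring.valuation (z - algebraMap ℂ Ω c) < 1)
    (hd : v.ring.valuation (w - algebraMap ℂ Ω d) < 1) :
    v.ring.valuation (z * w - algebraMap ℂ Ω (c * d)) < 1 := by
  have h1 : z * w - algebraMap ℂ Ω (c * d) =
      (z - algebraMap ℂ Ω c) * w + algebraMap ℂ Ω c * (w - algebraMap ℂ Ω d) := by
    rw [map_mul]; ring
  rw [h1]
  refine lt_of_le_of_lt (Valuation.map_add _ _ _) (max_lt ?_ ?_)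
  · rw [map_mul]
    exact lt_of_le_of_lt (mul_le_of_le_one_right' (val_one_of_mem hw)) hc
  · rw [map_mul]
    exact lt_of_le_of_lt (mul_le_of_le_one_left' (val_one_of_mem (v.const_mem c))) hd

theorem mem_of_residue {v : Pt Ω} {z : Ω} {c : ℂ}
    (hc : v.ring.valuation (z - algebraMap ℂ Ω c) < 1) : z ∈ v.ring := by
  have h1 : z - algebraMap ℂ Ω c ∈ v.ring :=
    (ValuationSubring.valuation_le_one_iff _ _).1 hc.le
  have h2 := v.ring.add_mem _ _ h1 (v.const_mem c)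
  simpa using h2

/-! ### tame inertia -/

variable [CurveUniverse Ω]

theorem ordO_zero (v : Pt Ω) (K : IntermediateField ℂ Ω) : ordO v K 0 = 0 := by
  have h1 := ordO_algebraMap (K := K) v 0
  rwa [map_zero] at h1

theorem ne_zero_of_ordO {v : Pt Ω} {K : IntermediateField ℂ Ω} {z : Ω} (h : ordO v K z ≠ 0) :
    z ≠ 0 := by
  rintro rfl
  exact h (ordO_zero v K)

theorem ordO_fix {v : Pt Ω} {M : IntermediateField ℂ Ω} {g : Ω ≃ₐ[ℂ] Ω} (hgM : mapF g M = M)
    (hg : g • v = v) (z : Ω) : ordO v M (g z) = ordO v M z := by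
  have h1 := ordO_smul (K := M) v g z
  rwa [hgM, hg] at h1

omit [CurveUniverse Ω] in
theorem apply_mem_of_mapF {M : IntermediateField ℂ Ω} {g : Ω ≃ₐ[ℂ] Ω} (hgM : mapF g M = M) {z : Ω}
    (hz : z ∈ M) : g z ∈ M := by
  have h1 : g z ∈ mapF g M := apply_mem_mapF.2 hz
  rwa [hgM] at h1

theorem ordO_div (v : Pt Ω) {M : IntermediateField ℂ Ω} (hM : FF M) {z w : Ω} (hz : z ∈ M)
    (hw : w ∈ M) (hz0 : z ≠ 0) (hw0 : w ≠ 0) : ordO v M (z / w) = ordO v M z - ordO v M w := by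
  rw [div_eq_mul_inv, ordO_mul v hM hz (M.inv_mem hw) hz0 (inv_ne_zero hw0), ordO_inv v hM hw]
  ring

theorem ordO_eq_zero_of_residue {v : Pt Ω} {M : IntermediateField ℂ Ω} (hM : FF M) {z : Ω}
    (hz : z ∈ M) {c : ℂ} (hc : c ≠ 0) (h : v.ring.valuation (z - algebraMap ℂ Ω c) < 1) :
    z ≠ 0 ∧ ordO v M z = 0 := by
  have hval : v.ring.valuation z = 1 := by
    have h1 : z = (z - algebraMap ℂ Ω c) + algebraMap ℂ Ω c := by ring
    rw [h1, Valuation.map_add_eq_of_lt_right]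
    · exact algebraMap_val_eq_one v hc
    · rw [algebraMap_val_eq_one v hc]
      exact h
  have hz0 : z ≠ 0 := by
    rintro rfl
    rw [map_zero] at hval
    exact zero_ne_one hval
  refine ⟨hz0, le_antisymm ?_ ?_⟩
  · by_contra hcon
    rw [not_le, ordO_pos_iff v hM hz hz0, hval] at hcon
    exact lt_irrefl _ hcon
  · rw [ordO_nonneg_iff v hM hz hz0]
    exact mem_of_residue h

theorem exists_chi {v : Pt Ω} {M : IntermediateField ℂ Ω} (hM : FF M) {π : Ω} (hπ : π ∈ M)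
    (hπ1 : ordO v M π = 1) {g : Ω ≃ₐ[ℂ] Ω} (hgM : mapF g M = M) (hg : g • v = v) :
    ∃ c : ℂ, c ≠ 0 ∧ v.ring.valuation (g π / π - algebraMap ℂ Ω c) < 1 := by
  have hπ0 : π ≠ 0 := ne_zero_of_ordO (by rw [hπ1]; exact one_ne_zero)
  have hgπ0 : g π ≠ 0 := by
    intro h
    exact hπ0 ((map_eq_zero g).1 h)
  have hgπ : g π ∈ M := apply_mem_of_mapF hgM hπ
  have hmem : g π / π ∈ M := M.div_mem hgπ hπ
  have hne : g π / π ≠ 0 := div_ne_zero hgπ0 hπ0
  have hord : ordO v M (g π / π) = 0 := by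
    rw [ordO_div v hM hgπ hπ hgπ0 hπ0, ordO_fix hgM hg, sub_self]
  have hring : g π / π ∈ v.ring := (ordO_nonneg_iff v hM hmem hne).1 hord.ge
  obtain ⟨c, hc⟩ := pt_exists_residue v hring
  refine ⟨c, ?_, hc⟩
  rintro rfl
  rw [map_zero, sub_zero, ← ordO_pos_iff v hM hmem hne, hord] at hc
  exact lt_irrefl _ hc

theorem fixes_of_chi_one {v : Pt Ω} {M : IntermediateField ℂ Ω} (hM : FF M) {π : Ω} (hπ : π ∈ M)
    (hπ1 : ordO v M π = 1) {g : Ω ≃ₐ[ℂ] Ω} (hgM : mapF g M = M) (hg : g • v = v) {n : ℕ}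
    (hn : n ≠ 0) (hgn : Fixes (g ^ n) M)
    (h1 : v.ring.valuation (g π / π - algebraMap ℂ Ω 1) < 1) : Fixes g M := by
  have hπ0 : π ≠ 0 := ne_zero_of_ordO (by rw [hπ1]; exact one_ne_zero)
  have hgπ0 : ∀ z : Ω, z ≠ 0 → g z ≠ 0 := fun z hz h => hz ((map_eq_zero g).1 h)
  have hpow : ∀ i : ℕ, (g ^ i) π ∈ M := by
    intro i
    induction i with
    | zero => exact hπ
    | succ i ih =>
      rw [pow_succ', AlgEquiv.mul_apply]
      exact apply_mem_of_mapF hgM ih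
  have hi : ∀ i : ℕ, v.ring.valuation ((g ^ i) π / π - algebraMap ℂ Ω 1) < 1 := by
    intro i
    induction i with
    | zero =>
      rw [pow_zero, AlgEquiv.one_apply, div_self hπ0, map_one, sub_self, map_zero]
      exact zero_lt_one
    | succ i ih =>
      have h2 : (g ^ (i + 1)) π / π = g ((g ^ i) π / π) * (g π / π) := by
        rw [pow_succ', AlgEquiv.mul_apply, map_div₀]
        field_simp [hgπ0 π hπ0]
      have h3 := residue_mul (mem_of_residue h1) (sub_smul_lt_one hg ih) h1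
      rw [mul_one] at h3
      rw [h2]
      exact h3
  set T : Ω := ∑ i ∈ Finset.range n, (g ^ i) π with hT
  have hTM : T ∈ M := M.sum_mem fun i _ => hpow i
  have hTres : v.ring.valuation (T / π - algebraMap ℂ Ω (n : ℂ)) < 1 := by
    have h2 : T / π - algebraMap ℂ Ω (n : ℂ) =
        ∑ i ∈ Finset.range n, ((g ^ i) π / π - algebraMap ℂ Ω 1) := by
      rw [Finset.sum_sub_distrib, ← Finset.sum_div, Finset.sum_const, Finset.card_range,
        nsmul_eq_mul, map_one, mul_one, map_natCast]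
    rw [h2]
    exact Valuation.map_sum_lt _ one_ne_zero fun i _ => hi i
  obtain ⟨hT0', hTord'⟩ := ordO_eq_zero_of_residue hM (M.div_mem hTM hπ)
    (Nat.cast_ne_zero.2 hn) hTres
  have hT0 : T ≠ 0 := by
    intro h
    rw [h, zero_div] at hT0'
    exact hT0' rfl
  have hTord : ordO v M T = 1 := by
    have h2 := ordO_mul v hM (M.div_mem hTM hπ) hπ hT0' hπ0
    rw [div_mul_cancel₀ _ hπ0, hTord', hπ1] at h2
    exact h2
  have hgT : g T = T := by
    rw [hT, map_sum]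
    have h2 : ∀ i ∈ Finset.range n, g ((g ^ i) π) = (g ^ (i + 1)) π := fun i _ => by
      rw [pow_succ', AlgEquiv.mul_apply]
    rw [Finset.sum_congr rfl h2]
    have h3 := Finset.sum_range_succ' (fun i => (g ^ i) π) n
    rw [Finset.sum_range_succ] at h3
    rw [hgn π hπ, pow_zero, AlgEquiv.one_apply] at h3
    exact (add_right_cancel h3).symm
  have key : ∀ m : ℕ, ∀ z ∈ M, z ∈ v.ring → g z - z ≠ 0 → (m : ℤ) ≤ ordO v M (g z - z) := by
    intro m
    induction m with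
    | zero =>
      intro z hz hzv hne
      rw [Nat.cast_zero, ordO_nonneg_iff v hM (M.sub_mem (apply_mem_of_mapF hgM hz) hz) hne]
      exact sub_mem ((mem_ring_of_smul hg z).2 hzv) hzv
    | succ m ih =>
      intro z hz hzv hne
      obtain ⟨c, hc⟩ := pt_exists_residue v hzv
      have hcM : algebraMap ℂ Ω c ∈ M := M.algebraMap_mem c
      have hzc : z - algebraMap ℂ Ω c ≠ 0 := by
        intro h
        rw [sub_eq_zero] at h
        rw [h, AlgEquiv.commutes, sub_self] at hne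
        exact hne rfl
      have hzcM : z - algebraMap ℂ Ω c ∈ M := M.sub_mem hz hcM
      have hpos : 0 < ordO v M (z - algebraMap ℂ Ω c) := (ordO_pos_iff v hM hzcM hzc).2 hc
      set y : Ω := (z - algebraMap ℂ Ω c) / T with hy
      have hyM : y ∈ M := M.div_mem hzcM hTM
      have hy0 : y ≠ 0 := div_ne_zero hzc hT0
      have hyord : 0 ≤ ordO v M y := by
        rw [hy, ordO_div v hM hzcM hTM hzc hT0, hTord]
        omega
      have hyv : y ∈ v.ring := (ordO_nonneg_iff v hM hyM hy0).1 hyord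
      have hz' : z = algebraMap ℂ Ω c + T * y := by
        rw [hy, mul_div_cancel₀ _ hT0]
        ring
      have heq : g z - z = T * (g y - y) := by
        rw [hz', map_add, map_mul, AlgEquiv.commutes, hgT]
        ring
      rw [heq] at hne ⊢
      have hne' : g y - y ≠ 0 := right_ne_zero_of_mul hne
      rw [ordO_mul v hM hTM (M.sub_mem (apply_mem_of_mapF hgM hyM) hyM) hT0 hne', hTord]
      have := ih y hyM hyv hne'
      push_cast
      omega
  have hring : ∀ z ∈ M, z ∈ v.ring → g z = z := by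
    intro z hz hzv
    by_contra hne
    have hne' : g z - z ≠ 0 := sub_ne_zero.2 hne
    have h2 := key ((ordO v M (g z - z)).toNat + 1) z hz hzv hne'
    push_cast at h2
    have h3 := Int.self_le_toNat (ordO v M (g z - z))
    omega
  intro z hz
  rcases v.ring.mem_or_inv_mem z with h | h
  · exact hring z hz h
  · have h2 := hring z⁻¹ (M.inv_mem hz) h
    rw [map_inv₀] at h2
    exact inv_injective h2

theorem exists_pow_fixes {K M : IntermediateField ℂ Ω} (hK : FF K) (hM : FF M) (h : K ≤ M)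
    {g : Ω ≃ₐ[ℂ] Ω} (hg : Fixes g K) : ∃ n : ℕ, n ≠ 0 ∧ Fixes (g ^ n) M := by
  have h1 := relIndex_fixG hK hM h
  have h2 := ff_relfinrank_pos hK hM h
  rw [← h1] at h2
  obtain ⟨n, hn, -, hmem⟩ := Subgroup.exists_pow_mem_of_relIndex_ne_zero h2.ne'
    (show g ∈ fixG K from hg)
  exact ⟨n, hn.ne', hmem.1⟩

/-- tame inertia is cyclic -/
theorem exists_generator (v : Pt Ω) {K M : IntermediateField ℂ Ω} (hK : FF K) (hM' : FF M)
    (h : K ≤ M) (hM : Stable K M) :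
    ∃ g₀ ∈ stab v K, ∀ g ∈ stab v K, ∃ k : ℤ, (g₀ ^ k)⁻¹ * g ∈ stab v M := by
  obtain ⟨π, hπ, hπ1⟩ := exists_ordO_eq_one v hM'
  have hπ0 : π ≠ 0 := ne_zero_of_ordO (by rw [hπ1]; exact one_ne_zero)
  have hex : ∀ g : stab v K, ∃ c : ℂ, c ≠ 0 ∧
      v.ring.valuation ((g : Ω ≃ₐ[ℂ] Ω) π / π - algebraMap ℂ Ω c) < 1 :=
    fun g => exists_chi hM' hπ hπ1 (hM.mapF_eq g.2.1) g.2.2
  choose χ hχ0 hχ using hex
  let X : stab v K →* ℂˣ :=
    { toFun := fun g => Units.mk0 (χ g) (hχ0 g)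
      map_one' := by
        refine Units.ext ?_
        change χ 1 = 1
        refine residue_unique (hχ 1) ?_
        change v.ring.valuation (π / π - algebraMap ℂ Ω 1) < 1
        rw [div_self hπ0, map_one, sub_self, map_zero]
        exact zero_lt_one
      map_mul' := by
        intro g k
        refine Units.ext ?_
        change χ (g * k) = χ g * χ k
        refine residue_unique (hχ (g * k)) ?_
        have hgπ0 : (g : Ω ≃ₐ[ℂ] Ω) π ≠ 0 := fun h => hπ0 ((map_eq_zero _).1 h)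
        have h2 : ((g * k : stab v K) : Ω ≃ₐ[ℂ] Ω) π / π =
            (g : Ω ≃ₐ[ℂ] Ω) ((k : Ω ≃ₐ[ℂ] Ω) π / π) * ((g : Ω ≃ₐ[ℂ] Ω) π / π) := by
          rw [map_div₀]
          change (g : Ω ≃ₐ[ℂ] Ω) ((k : Ω ≃ₐ[ℂ] Ω) π) / π = _
          field_simp
        rw [h2, mul_comm (χ g)]
        exact residue_mul (mem_of_residue (hχ g)) (sub_smul_lt_one g.2.2 (hχ k)) (hχ g) }
  have hker : X.ker = (stab v M).subgroupOf (stab v K) := by
    ext g
    rw [MonoidHom.mem_ker, Subgroup.mem_subgroupOf]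
    constructor
    · intro h1
      have h2 : χ g = 1 := congrArg Units.val h1
      obtain ⟨n, hn, hgn⟩ := exists_pow_fixes hK hM' h g.2.1
      refine ⟨fixes_of_chi_one hM' hπ hπ1 (hM.mapF_eq g.2.1) g.2.2 hn hgn ?_, g.2.2⟩
      rw [← h2]
      exact hχ g
    · intro h1
      refine Units.ext ?_
      change χ g = 1
      refine residue_unique (hχ g) ?_
      rw [h1.1 π hπ, div_self hπ0, map_one, sub_self, map_zero]
      exact zero_lt_one
  have hfin : Finite X.range := by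
    refine Nat.finite_of_card_ne_zero ?_
    rw [← Subgroup.index_ker, hker]
    change e v K M ≠ 0
    rw [pt_e_eq_eV v hK hM' h]
    exact (eV_pos v hK hM' h).ne'
  have hcyc : IsCyclic X.range := inferInstance
  obtain ⟨⟨y, g₀, hg₀⟩, hy⟩ := hcyc.exists_generator
  refine ⟨g₀, g₀.2, fun g hg => ?_⟩
  obtain ⟨k, hk⟩ := Subgroup.mem_zpowers_iff.1 (hy ⟨X ⟨g, hg⟩, _, rfl⟩)
  refine ⟨k, ?_⟩
  have h3 : X g₀ ^ k = X ⟨g, hg⟩ := by
    have := congrArg Subtype.val hk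
    rw [Subgroup.coe_zpow] at this
    rw [hg₀]
    exact this
  have h4 : (g₀ ^ k)⁻¹ * ⟨g, hg⟩ ∈ X.ker := by
    rw [MonoidHom.mem_ker, map_mul, map_inv, map_zpow, h3, inv_mul_cancel]
  rw [hker, Subgroup.mem_subgroupOf] at h4
  exact h4

omit [CurveUniverse Ω] in
theorem ff_sup {K₁ K₂ : IntermediateField ℂ Ω} (h₁ : FF K₁) (h₂ : FF K₂) : FF (K₁ ⊔ K₂) := by
  refine ⟨fg_sup h₁.1 h₂.1, ?_⟩
  intro hbot
  refine h₁.2 (le_bot_iff.1 ?_)
  rw [← hbot]
  exact le_sup_left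

end H50

open H50

variable [CurveUniverse Ω]

theorem pt_e_sup (v : Pt Ω) {K K₁ K₂ : IntermediateField ℂ Ω} (hK : FF K) (h₁ : FF K₁)
    (h₂ : FF K₂) (h : K ≤ K₁) (h' : K ≤ K₂) :
    e v K (K₁ ⊔ K₂) = Nat.lcm (e v K K₁) (e v K K₂) := by
  obtain ⟨M, hM, hle, hst⟩ := exists_stable hK (ff_sup h₁ h₂) (h.trans le_sup_left)
  obtain ⟨g₀, hg₀, hgen⟩ := exists_generator v hK hM ((h.trans le_sup_left).trans hle) hst
  have h3 : stab v (K₁ ⊔ K₂) = stab v K₁ ⊓ stab v K₂ := by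
    ext g
    rw [Subgroup.mem_inf, mem_stab, mem_stab, mem_stab]
    constructor
    · rintro ⟨hf, hv⟩
      exact ⟨⟨hf.mono le_sup_left, hv⟩, ⟨hf.mono le_sup_right, hv⟩⟩
    · rintro ⟨⟨hf, hv⟩, ⟨hf', -⟩⟩
      exact ⟨fixes_sup hf hf', hv⟩
  rw [e, e, e, h3]
  exact relIndex_inf_lcm hg₀ hgen (stab_mono (le_sup_left.trans hle))
    (stab_mono (le_sup_right.trans hle))

theorem pt_finite_ram {K K' : IntermediateField ℂ Ω} (hK : FF K) (hK' : FF K') (h : K ≤ K') :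
    {P : Pl K' | e P.pt K K' ≠ 1}.Finite := by
  obtain ⟨θ, hθK', hθ, hfix⟩ := exists_ff_primitive hK hK' h
  obtain ⟨M, hM, hK'M, hst⟩ := exists_stable hK hK' h
  set C : Set Ω := {w | ∃ g : Ω ≃ₐ[ℂ] Ω, Fixes g K ∧ g θ = w} with hC
  have hCf : C.Finite := (ncard_conj hK θ).1
  have hfin2 : ∀ w ∈ C, {P : Pl K' | ordO P.pt M (θ - w) ≠ 0}.Finite := by
    intro w _
    refine Set.Finite.of_injOn (f := fun P : Pl K' => Pl.mk M P.pt)
      (t := {Q : Pl M | ordO Q.pt M (θ - w) ≠ 0}) ?_ ?_ (finite_ordO hM (θ - w))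
    · intro P hP
      change ordO (Pl.mk M P.pt).pt M (θ - w) ≠ 0
      rw [ordO_congr _ (Pl.sameOn_pt_mk M P.pt)]
      exact hP
    · intro P _ Q _ hPQ
      have h1 : SameOn M P.pt Q.pt := Pl.mk_eq_mk.1 hPQ
      rw [← Pl.mk_pt P, ← Pl.mk_pt Q, Pl.mk_eq_mk]
      exact h1.mono hK'M
  refine ((finite_ordO hK' θ).union (hCf.biUnion hfin2)).subset ?_
  intro P hP
  have h1 : ¬ stab P.pt K ≤ stab P.pt K' := by
    intro hle
    exact hP (Subgroup.relIndex_eq_one.2 hle)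
  obtain ⟨g, hg, hg'⟩ := SetLike.not_le_iff_exists.1 h1
  have hgθ : g θ ≠ θ := by
    intro h2
    exact hg' ⟨(hfix g hg.1).1 h2, hg.2⟩
  by_cases hr : θ ∈ P.pt.ring
  · right
    rw [Set.mem_iUnion₂]
    refine ⟨g θ, ⟨g, hg.1, rfl⟩, ?_⟩
    obtain ⟨c, hc⟩ := pt_exists_residue P.pt hr
    have hc' := sub_smul_lt_one hg.2 hc
    have h2 : θ - g θ = (θ - algebraMap ℂ Ω c) - (g θ - algebraMap ℂ Ω c) := by ring
    have h3 : P.pt.ring.valuation (θ - g θ) < 1 := by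
      rw [h2]
      exact lt_of_le_of_lt (Valuation.map_sub _ _ _) (max_lt hc hc')
    have h4 : θ - g θ ∈ M := M.sub_mem (hK'M hθK') (hst g hg.1 θ (hK'M hθK'))
    exact ((ordO_pos_iff P.pt hM h4 (sub_ne_zero.2 (Ne.symm hgθ))).2 h3).ne'
  · left
    have hθ0 : θ ≠ 0 := by
      rintro rfl
      exact hgθ (map_zero g)
    intro h2
    exact hr ((ordO_nonneg_iff P.pt hK' hθK' hθ0).1 h2.ge)

end Pool.Agent.Helper63.Pak
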